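import Pool.Agent.E8helper81.GZ.Fin

/-!
# Goldbach lower bounds on multiples of `q` and exceptional characters

The assertion Q1 implies `|L(1, χ)| ≥ c φ(q) / (q log q)` for every primitive real character `χ` modulo
`q ≥ q₀` which is odd, or whose conductor `q` is divisible by `3` or by `4`.

If `a + b = n` with `a, b` prime to `q`, and `n` is a multiple of `q`, then `χ(a) χ(b) = χ(-1)`. If
`q = 3 r` (or `q = 2 r`, `r` even) and `n` is a multiple of `r` but not of `q`, then `χ(a) χ(b) = -χ(-1)`,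
since `χ` is not trivial on the kernel of the reduction modulo `r`, which has order 2 on the relevant
classes. So also even characters of such a conductor have progressions in which each representation
`n = p + p'` has a prime with `χ ≠ -1`, and there are few such primes if `L(1, χ)` is small.
-/

set_option autoImplicit false

namespace Pool.Agent.Results.MP_92f640_nt.ExceptionalCharactersH81

/-- the number of ordered representations of `n` as a sum of two primes -/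
def g (n : ℕ) : ℕ := ((Finset.range (n + 1)).filter (fun p => p.Prime ∧ (n - p).Prime)).card

/-- The assertion of Q1 (the frozen statement S17797, word for word). -/
def Q1 : Prop := ∃ c : ℝ, 0 < c ∧ ∃ X₀ : ℝ, ∀ x : ℝ, X₀ ≤ x → ∀ q : ℕ, 0 < q → (q : ℝ) ≤ x / 4 →
  (((Finset.Icc 1 ⌊x⌋₊).filter (fun n : ℕ => x / 2 < (n : ℝ) ∧ Even n ∧ q ∣ n ∧
    (((Finset.range (n + 1)).filter (fun p : ℕ => p.Prime ∧ (n - p).Prime)).card : ℝ)
      < c * (n : ℝ) / (Real.log (n : ℝ)) ^ 2)).card : ℝ) ≤ x / (8 * (q : ℝ))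

/-- Primitive real characters: primitive, with values `0`, `1`, `-1`. -/
def PrimitiveReal {q : ℕ} (χ : DirichletCharacter ℂ q) : Prop :=
  χ.IsPrimitive ∧ ∀ a, χ a = 0 ∨ χ a = 1 ∨ χ a = -1

/-- (1) For every primitive real `χ` modulo `q ≥ 28` which is odd or has `3 ∣ q` or `4 ∣ q` some `n`,
`q ≤ n ≤ q ^ 9`, divisible by `4` or by `6`, has at most
`C (q / φ(q)) log q (|L(1, χ)| + 1 / q²) n / log² n` representations. (2) Q1 implies
`|L(1, χ)| ≥ c φ(q) / (q log q)` for these characters, `q ≥ q₀`. -/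
theorem result :
    (∃ C : ℝ, 0 < C ∧ ∀ (q : ℕ) [NeZero q] (χ : DirichletCharacter ℂ q), 28 ≤ q →
      PrimitiveReal χ → (χ (-1) = -1 ∨ 3 ∣ q ∨ 4 ∣ q) →
      ∃ n : ℕ, q ≤ n ∧ n ≤ q ^ 9 ∧ (4 ∣ n ∨ 6 ∣ n) ∧
        (g n : ℝ) ≤ C * (q / Nat.totient q) * Real.log q *
          (‖χ.LFunction 1‖ + 1 / (q : ℝ) ^ 2) * (n / Real.log n ^ 2)) ∧
    (Q1 → ∃ c : ℝ, 0 < c ∧ ∃ q₀ : ℕ, ∀ (q : ℕ) [NeZero q] (χ : DirichletCharacter ℂ q), q₀ ≤ q →
      PrimitiveReal χ → (χ (-1) = -1 ∨ 3 ∣ q ∨ 4 ∣ q) →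
      c * (Nat.totient q / q) / Real.log q ≤ ‖χ.LFunction 1‖) := by
  refine ⟨?_, fun h => ?_⟩
  · obtain ⟨C, hC, h1⟩ := Pool.Agent.E8helper81.GZ.exists_n
    exact ⟨C, hC, fun q _ χ hq hχ hcond => h1 q χ hq ⟨hχ.1, hχ.2⟩ hcond⟩
  · obtain ⟨c, hc, q₀, h1⟩ := Pool.Agent.E8helper81.GZ.L_lower h
    exact ⟨c, hc, q₀, fun q _ χ hq hχ hcond => h1 q χ hq ⟨hχ.1, hχ.2⟩ hcond⟩

end Pool.Agent.Results.MP_92f640_nt.ExceptionalCharactersH81
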